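import Mathlib

/-!
# Coisotropic submanifolds and Poisson homeomorphisms (MP_8cfe96_gt): definitions

Paper proof: `/team-store/MP_8cfe96_paper.md`.
-/

open scoped Manifold ContDiff Topology
open Set Filter Metric

noncomputable section

namespace CoP

section manifold

variable (E : Type*) [NormedAddCommGroup E] [NormedSpace ℝ E]
  (M : Type*) [TopologicalSpace M] [ChartedSpace E M]

/-- A Poisson bracket on the algebra of smooth real functions of a manifold `M`. -/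
structure Poisson where
  br : C^∞⟮𝓘(ℝ, E), M; ℝ⟯ → C^∞⟮𝓘(ℝ, E), M; ℝ⟯ → C^∞⟮𝓘(ℝ, E), M; ℝ⟯
  add_left : ∀ f g h, br (f + g) h = br f h + br g h
  smul_left : ∀ (c : ℝ) f g, br (c • f) g = c • br f g
  skew : ∀ f g, br f g = -br g f
  leibniz : ∀ f g h, br (f * g) h = f * br g h + g * br f h
  jacobi : ∀ f g h, br f (br g h) + br g (br h f) + br h (br f g) = 0

variable {E M}

/-- `ψ` is a Poisson map: `{f ∘ ψ, g ∘ ψ} = {f, g} ∘ ψ`. -/
def IsPoissonMap (π : Poisson E M) (ψ : C^∞⟮𝓘(ℝ, E), M; 𝓘(ℝ, E), M⟯) : Prop :=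
  ∀ (f g : C^∞⟮𝓘(ℝ, E), M; ℝ⟯) (x : M), π.br (f.comp ψ) (g.comp ψ) x = π.br f g (ψ x)

/-- A Poisson homeomorphism: a homeomorphism which is a limit, in the compact-open topology, of a
sequence of Poisson diffeomorphisms. -/
def IsPoissonHomeo (π : Poisson E M) (φ : M ≃ₜ M) : Prop :=
  ∃ ψ : ℕ → M ≃ₘ^∞⟮𝓘(ℝ, E), 𝓘(ℝ, E)⟯ M,
    (∀ k, IsPoissonMap π ⟨ψ k, (ψ k).contMDiff⟩) ∧
    Tendsto (fun k => (⟨ψ k, (ψ k).continuous⟩ : C(M, M))) atTop
      (𝓝 (⟨φ, φ.continuous⟩ : C(M, M)))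

variable (E) in
/-- An embedded submanifold: near each of its points it is a linear slice in some chart of the
maximal smooth atlas. -/
def IsSubmanifold (N : Set M) : Prop :=
  ∀ p ∈ N, ∃ e ∈ IsManifold.maximalAtlas 𝓘(ℝ, E) ∞ M, p ∈ e.source ∧
    ∃ V : Submodule ℝ E, ∀ x ∈ e.source, x ∈ N ↔ e x - e p ∈ V

/-- The vanishing ideal of `N` is closed under the bracket. -/
def IsCoisotropic (π : Poisson E M) (N : Set M) : Prop :=
  ∀ f g : C^∞⟮𝓘(ℝ, E), M; ℝ⟯, (∀ x ∈ N, f x = 0) → (∀ x ∈ N, g x = 0) →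
    ∀ x ∈ N, π.br f g x = 0

end manifold

section canonical

/-- The standard space `ℝⁿ × ℝⁿ` of positions and momenta. -/
abbrev Z (n : ℕ) : Type := (Fin n → ℝ) × (Fin n → ℝ)

variable {n : ℕ}

/-- The square of the euclidean norm. -/
def nsq (z : Z n) : ℝ := ∑ i, (z.1 i ^ 2 + z.2 i ^ 2)

/-- Partial derivatives with respect to the positions. -/
def gQ (h : Z n → ℝ) (z : Z n) (i : Fin n) : ℝ := fderiv ℝ h z (Pi.single i 1, 0)

/-- Partial derivatives with respect to the momenta. -/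
def gP (h : Z n → ℝ) (z : Z n) (i : Fin n) : ℝ := fderiv ℝ h z (0, Pi.single i 1)

/-- The canonical Poisson bracket. -/
def pb (F G : Z n → ℝ) (z : Z n) : ℝ := ∑ i, (gP F z i * gQ G z i - gQ F z i * gP G z i)

/-- The Hamiltonian vector field `(∂_p h, -∂_q h)`. -/
def XH (h : Z n → ℝ) (z : Z n) : Z n := (gP h z, fun i => -gQ h z i)

/-- Time weight supported on `[0, 1/2]`. -/
def b1 (t : ℝ) : ℝ := 48 * max 0 (t * (1 / 2 - t))

/-- Time weight supported on `[1/2, 1]`. -/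
def b2 (t : ℝ) : ℝ := 48 * max 0 ((t - 1 / 2) * (1 - t))

end canonical

section localstructure

variable {E : Type*} [NormedAddCommGroup E] [NormedSpace ℝ E]

/-- The bracket defined by a bivector field `P` (as a map from covectors to vectors). -/
def brk (P : E → (E →L[ℝ] ℝ) →L[ℝ] E) (u v : E → ℝ) (x : E) : ℝ :=
  fderiv ℝ v x (P x (fderiv ℝ u x))

/-- A local Poisson structure on the ball of radius `r`. -/
structure LPS (P : E → (E →L[ℝ] ℝ) →L[ℝ] E) (r : ℝ) : Prop where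
  pos : 0 < r
  smooth : ContDiffOn ℝ ∞ P (ball 0 r)
  skew : ∀ x ∈ ball (0 : E) r, ∀ α β : E →L[ℝ] ℝ, β (P x α) = -α (P x β)
  jacobi : ∀ U ⊆ ball (0 : E) r, IsOpen U → ∀ u v w : E → ℝ, ContDiffOn ℝ ∞ u U →
    ContDiffOn ℝ ∞ v U → ContDiffOn ℝ ∞ w U → ∀ x ∈ U,
      brk P u (brk P v w) x + brk P v (brk P w u) x + brk P w (brk P u v) x = 0

end localstructure

end CoP
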